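import Mathlib

set_option autoImplicit false

namespace Pool.Agent.H349R3

open Polynomial

/-- Generators `z i` with `[z i, z j] = om i j`, `om` invertible with inverse `oi`,
generating the algebra, with the universal property. -/
structure WD (K : Type) [Field K] (ι : Type) [Fintype ι] [DecidableEq ι]
    (W : Type) [Ring W] [Algebra K W] where
  z : ι → W
  om : ι → ι → K
  oi : ι → ι → K
  inv1 : ∀ a b, ∑ i, oi a i * om i b = if a = b then 1 else 0
  inv2 : ∀ a b, ∑ i, om a i * oi i b = if a = b then 1 else 0
  skew : ∀ a b, om a b = - om b a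
  rel : ∀ i j, z i * z j - z j * z i = algebraMap K W (om i j)
  gen : Algebra.adjoin K (Set.range z) = ⊤
  lift : ∀ (B : Type) [Ring B] [Algebra K B] (y : ι → B),
    (∀ i j, y i * y j - y j * y i = algebraMap K B (om i j)) →
      ∃ f : W →ₐ[K] B, ∀ i, f (z i) = y i

variable {K : Type} [Field K] [CharZero K] {ι : Type} [Fintype ι] [DecidableEq ι]
  {W : Type} [Ring W] [Algebra K W]

/-- commutator with `a`, as a linear map -/
noncomputable def ad (K : Type) [Field K] {W : Type} [Ring W] [Algebra K W] (a : W) :
    W →ₗ[K] W := LinearMap.mulLeft K a - LinearMap.mulRight K a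

omit [CharZero K] in
lemma ad_apply (a w : W) : ad K a w = a * w - w * a := by simp [ad]

omit [CharZero K] in
lemma ad_mul (a x y : W) : ad K a (x * y) = ad K a x * y + x * ad K a y := by
  simp only [ad_apply]; noncomm_ring

/-- Jordan product -/
noncomputable def jp (K : Type) [Field K] {W : Type} [Ring W] [Algebra K W] (a : W) :
    W →ₗ[K] W := (1 / 2 : K) • (LinearMap.mulLeft K a + LinearMap.mulRight K a)

omit [CharZero K] in
lemma jp_apply (a w : W) : jp K a w = (1 / 2 : K) • (a * w + w * a) := by simp [jp]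

omit [CharZero K] in
lemma jp_comm (a w : W) : jp K a w = jp K w a := by
  rw [jp_apply, jp_apply, add_comm]

omit [CharZero K] in
lemma jp_add_left (a b w : W) : jp K (a + b) w = jp K a w + jp K b w := by
  rw [jp_comm, map_add, jp_comm w a, jp_comm w b]

omit [CharZero K] in
lemma jp_smul_left (c : K) (a w : W) : jp K (c • a) w = c • jp K a w := by
  rw [jp_comm, map_smul, jp_comm w a]

omit [CharZero K] in
lemma jp_sum_left {α : Type} (s : Finset α) (g : α → W) (w : W) :
    jp K (∑ i ∈ s, g i) w = ∑ i ∈ s, jp K (g i) w := by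
  rw [jp_comm, map_sum]
  exact Finset.sum_congr rfl fun i _ => jp_comm _ _

omit [CharZero K] in
lemma ad_jp (a x y : W) : ad K a (jp K x y) = jp K (ad K a x) y + jp K x (ad K a y) := by
  simp only [jp_apply, map_smul, map_add, ad_mul]
  rw [← smul_add]
  congr 1
  abel

lemma jp_one (w : W) : jp K w 1 = w := by
  rw [jp_apply, mul_one, one_mul, ← two_smul K, smul_smul]
  norm_num

lemma jp_algebraMap (c : K) (w : W) : jp K (algebraMap K W c) w = c • w := by
  rw [Algebra.algebraMap_eq_smul_one, jp_smul_left, jp_comm, jp_one]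

omit [CharZero K] in
/-- Jordan multiplications by elements with central commutator commute -/
lemma jp_jp_comm (a b w : W) (h : ∀ x : W, (a * b - b * a) * x = x * (a * b - b * a)) :
    jp K a (jp K b w) = jp K b (jp K a w) := by
  simp only [jp_apply, mul_smul_comm, smul_mul_assoc, ← smul_add]
  congr 2
  have := h w
  have h2 : a * (b * w + w * b) + (b * w + w * b) * a -
      (b * (a * w + w * a) + (a * w + w * a) * b)
      = (a * b - b * a) * w - w * (a * b - b * a) := by noncomm_ring
  rw [this, sub_self] at h2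
  exact sub_eq_zero.mp h2

namespace WD

variable (P : WD K ι W)

/-- the derivation dual to `z a` -/
noncomputable def D (a : ι) : W →ₗ[K] W := ∑ j, P.oi a j • ad K (P.z j)

omit [CharZero K] in
lemma D_apply (a : ι) (w : W) : P.D a w = ∑ j, P.oi a j • ad K (P.z j) w := by
  simp [D]

omit [CharZero K] in
lemma D_mul (a : ι) (x y : W) : P.D a (x * y) = P.D a x * y + x * P.D a y := by
  simp only [D_apply, ad_mul, smul_add, Finset.sum_add_distrib, Finset.sum_mul, Finset.mul_sum,
    smul_mul_assoc, mul_smul_comm]

omit [CharZero K] in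
lemma D_jp (a : ι) (x y : W) : P.D a (jp K x y) = jp K (P.D a x) y + jp K x (P.D a y) := by
  simp only [D_apply, ad_jp, smul_add, Finset.sum_add_distrib, jp_sum_left, jp_smul_left, map_sum,
    map_smul]

omit [CharZero K] in
lemma ad_z_z (i j : ι) : ad K (P.z i) (P.z j) = algebraMap K W (P.om i j) := by
  rw [ad_apply, P.rel]

omit [CharZero K] in
lemma D_z (a b : ι) : P.D a (P.z b) = if a = b then 1 else 0 := by
  simp only [D_apply, ad_z_z]
  have : ∑ j, P.oi a j • algebraMap K W (P.om j b) = algebraMap K W (∑ j, P.oi a j * P.om j b) := by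
    rw [map_sum]
    exact Finset.sum_congr rfl fun j _ => by rw [Algebra.smul_def, ← map_mul]
  rw [this, P.inv1]
  split_ifs <;> simp

omit [CharZero K] in
lemma D_one (a : ι) : P.D a 1 = 0 := by simp [D_apply, ad_apply]

omit [CharZero K] in
lemma ad_z (i : ι) (w : W) : ad K (P.z i) w = ∑ a, P.om i a • P.D a w := by
  simp only [D_apply, Finset.smul_sum, smul_smul]
  rw [Finset.sum_comm]
  simp only [← Finset.sum_smul, P.inv2]
  simp

omit [CharZero K] in
lemma ad_ad (i j : ι) (w : W) : ad K (P.z i) (ad K (P.z j) w) = ad K (P.z j) (ad K (P.z i) w) := by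
  have h := P.rel i j
  have hc : (P.z i * P.z j - P.z j * P.z i) * w = w * (P.z i * P.z j - P.z j * P.z i) := by
    rw [h]; exact Algebra.commutes _ _
  simp only [ad_apply]
  have h2 : P.z i * (P.z j * w - w * P.z j) - (P.z j * w - w * P.z j) * P.z i
      - (P.z j * (P.z i * w - w * P.z i) - (P.z i * w - w * P.z i) * P.z j)
      = (P.z i * P.z j - P.z j * P.z i) * w - w * (P.z i * P.z j - P.z j * P.z i) := by
    noncomm_ring
  rw [hc, sub_self] at h2
  exact sub_eq_zero.mp h2

omit [CharZero K] in
lemma D_D (a b : ι) (w : W) : P.D a (P.D b w) = P.D b (P.D a w) := by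
  simp only [D_apply, map_sum, map_smul, Finset.smul_sum, smul_smul]
  rw [Finset.sum_comm]
  refine Finset.sum_congr rfl fun i _ => Finset.sum_congr rfl fun j _ => ?_
  rw [P.ad_ad, mul_comm]

/-- Euler operator -/
noncomputable def E : W →ₗ[K] W := ∑ k, (jp K (P.z k)).comp (P.D k)

omit [CharZero K] in
lemma E_apply (w : W) : P.E w = ∑ k, jp K (P.z k) (P.D k w) := by simp [E]

lemma D_E (a : ι) (w : W) : P.D a (P.E w) = P.D a w + P.E (P.D a w) := by
  simp only [E_apply, map_sum, D_jp, Finset.sum_add_distrib, P.D_z]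
  congr 1
  · rw [Finset.sum_eq_single a]
    · rw [if_pos rfl, jp_comm, jp_one]
    · intro b _ hb
      rw [if_neg (Ne.symm hb), jp_comm, map_zero]
    · intro h; exact absurd (Finset.mem_univ _) h
  · exact Finset.sum_congr rfl fun k _ => by rw [P.D_D]

lemma E_jz (i : ι) (w : W) : P.E (jp K (P.z i) w) = jp K (P.z i) w + jp K (P.z i) (P.E w) := by
  simp only [E_apply, D_jp, map_add, Finset.sum_add_distrib, P.D_z, map_sum]
  congr 1
  · rw [Finset.sum_eq_single i]
    · rw [if_pos rfl, jp_comm (1 : W), jp_one]
    · intro b _ hb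
      rw [if_neg hb, jp_comm (0 : W), map_zero, map_zero]
    · intro h; exact absurd (Finset.mem_univ _) h
  · refine Finset.sum_congr rfl fun k _ => ?_
    apply jp_jp_comm
    intro x
    rw [P.rel]
    exact Algebra.commutes _ _

/-- iterated Jordan products of `k` generators -/
noncomputable def SS : ℕ → Submodule K W
  | 0 => Submodule.span K {1}
  | k + 1 => ⨆ i, (SS k).map (jp K (P.z i))

lemma SS_E : ∀ k : ℕ, ∀ w ∈ P.SS k, P.E w = (k : K) • w
  | 0, w, hw => by
    rw [SS, Submodule.mem_span_singleton] at hw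
    obtain ⟨c, rfl⟩ := hw
    simp [E_apply, D_one]
  | k + 1, w, hw => by
    rw [SS] at hw
    induction hw using Submodule.iSup_induction' with
    | mem i x hx =>
      obtain ⟨y, hy, rfl⟩ := hx
      rw [E_jz, SS_E k y hy, map_smul]
      push_cast
      rw [add_smul, one_smul, add_comm]
    | zero => simp
    | add x y _ _ hx hy => rw [map_add, hx, hy, smul_add]

lemma SS_D0 (a : ι) (w : W) (hw : w ∈ P.SS 0) : P.D a w = 0 := by
  rw [SS, Submodule.mem_span_singleton] at hw
  obtain ⟨c, rfl⟩ := hw
  simp [D_one]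

lemma SS_D (a : ι) : ∀ k : ℕ, ∀ w ∈ P.SS (k + 1), P.D a w ∈ P.SS k := by
  intro k
  induction k with
  | zero =>
    intro w hw
    rw [SS] at hw
    induction hw using Submodule.iSup_induction' with
    | mem i x hx =>
      obtain ⟨y, hy, rfl⟩ := hx
      rw [D_jp, P.SS_D0 a y hy, map_zero, add_zero, D_z]
      split_ifs
      · rw [jp_comm, jp_one]; exact hy
      · rw [jp_comm, map_zero]; exact zero_mem _
    | zero => simp
    | add x y _ _ hx hy => rw [map_add]; exact add_mem hx hy
  | succ k ih =>
    intro w hw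
    rw [SS] at hw
    induction hw using Submodule.iSup_induction' with
    | mem i x hx =>
      obtain ⟨y, hy, rfl⟩ := hx
      rw [D_jp, D_z]
      refine add_mem ?_ ?_
      · split_ifs
        · rw [jp_comm, jp_one]; exact hy
        · rw [jp_comm, map_zero]; exact zero_mem _
      · have := ih y hy
        rw [SS]
        exact Submodule.mem_iSup_of_mem i ⟨_, this, rfl⟩
    | zero => simp
    | add x y _ _ hx hy => rw [map_add]; exact add_mem hx hy

lemma SS_mul (i : ι) (w : W) (hw : w ∈ ⨆ k, P.SS k) : P.z i * w ∈ ⨆ k, P.SS k := by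
  induction hw using Submodule.iSup_induction' with
  | mem k x hx =>
    have h1 : P.z i * x = jp K (P.z i) x + (1 / 2 : K) • ad K (P.z i) x := by
      rw [jp_apply, ad_apply, ← smul_add]
      have : P.z i * x + x * P.z i + (P.z i * x - x * P.z i) = (2 : K) • (P.z i * x) := by
        rw [two_smul]; abel
      rw [this, smul_smul]
      norm_num
    rw [h1]
    refine add_mem ?_ (Submodule.smul_mem _ _ ?_)
    · apply Submodule.mem_iSup_of_mem (k + 1)
      rw [SS]
      exact Submodule.mem_iSup_of_mem i ⟨x, hx, rfl⟩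
    · rw [ad_z]
      refine Submodule.sum_mem _ fun a _ => Submodule.smul_mem _ _ ?_
      cases k with
      | zero => rw [P.SS_D0 a x hx]; exact zero_mem _
      | succ k => exact Submodule.mem_iSup_of_mem k (P.SS_D a k x hx)
  | zero => rw [mul_zero]; exact zero_mem _
  | add x y _ _ hx hy => rw [mul_add]; exact add_mem hx hy

lemma SS_top : (⨆ k, P.SS k) = ⊤ := by
  set N := ⨆ k, P.SS k with hN
  have key : ∀ u ∈ Algebra.adjoin K (Set.range P.z), ∀ w ∈ N, u * w ∈ N := by
    intro u hu
    induction hu using Algebra.adjoin_induction with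
    | mem x hx =>
      obtain ⟨i, rfl⟩ := hx
      intro w hw
      exact P.SS_mul i w hw
    | algebraMap r =>
      intro w hw
      rw [← Algebra.smul_def]
      exact Submodule.smul_mem _ _ hw
    | add x y _ _ hx hy =>
      intro w hw
      rw [add_mul]
      exact add_mem (hx w hw) (hy w hw)
    | mul x y _ _ hx hy =>
      intro w hw
      rw [mul_assoc]
      exact hx _ (hy w hw)
  rw [eq_top_iff]
  intro w _
  have h1 : (1 : W) ∈ N := by
    apply Submodule.mem_iSup_of_mem 0
    rw [SS]
    exact Submodule.mem_span_singleton_self 1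
  have := key w (by rw [P.gen]; trivial) 1 h1
  rwa [mul_one] at this

/-- the Euler operator has no eigenvalue `-1` -/
lemma no_neg_one (y : W) (hy : P.E y = - y) : y = 0 := by
  have hind := Module.End.eigenspaces_iSupIndep (P.E)
  have hd := hind (-1 : K)
  have hle : (⊤ : Submodule K W) ≤ ⨆ μ, ⨆ (_ : μ ≠ (-1 : K)), Module.End.eigenspace P.E μ := by
    rw [← P.SS_top]
    refine iSup_le fun k => ?_
    have hk : ((k : ℕ) : K) ≠ -1 := by
      intro h
      have : ((k + 1 : ℕ) : K) = 0 := by push_cast; rw [h]; ring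
      exact Nat.succ_ne_zero k (by exact_mod_cast this)
    refine le_trans ?_ (le_iSup₂_of_le (k : K) hk le_rfl)
    intro w hw
    rw [Module.End.mem_eigenspace_iff]
    exact P.SS_E k w hw
  have hy' : y ∈ Module.End.eigenspace P.E (-1 : K) := by
    rw [Module.End.mem_eigenspace_iff, hy]; simp
  have := Submodule.disjoint_def.mp hd y hy' (hle trivial)
  exact this

end WD

end Pool.Agent.H349R3
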