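import Mathlib
import Pool.Agent.H349R3.Core

set_option autoImplicit false

namespace Pool.Agent.H349R3

open Polynomial

variable {K : Type} [Field K] [CharZero K] {ι : Type} [Fintype ι] [DecidableEq ι]
  {W : Type} [Ring W] [Algebra K W]

omit [CharZero K] in
lemma ad_swap (a b : W) : ad K a b = - ad K b a := by
  rw [ad_apply, ad_apply]; abel

omit [CharZero K] in
lemma jp_zero_left (w : W) : jp K (0 : W) w = 0 := by rw [jp_comm, map_zero]

namespace WD

variable (P : WD K ι W)

/-- linear span of the generators -/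
def V : Submodule K W := Submodule.span K (Set.range P.z)

/-- symmetrised homogeneous elements of degree `d` : the span of the `d`-th powers of the
linear elements -/
def S (d : ℕ) : Submodule K W := Submodule.span K {w | ∃ v ∈ P.V, w = v ^ d}

omit [CharZero K] in
lemma ad_V_scalar (a : ι) (v : W) (hv : v ∈ P.V) :
    ∃ c : K, P.D a v = algebraMap K W c := by
  induction hv using Submodule.span_induction with
  | mem x hx =>
    obtain ⟨i, rfl⟩ := hx
    rw [D_z]
    split_ifs
    · exact ⟨1, by simp⟩
    · exact ⟨0, by simp⟩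
  | zero => exact ⟨0, by simp⟩
  | add x y _ _ hx hy =>
    obtain ⟨c, hc⟩ := hx
    obtain ⟨c', hc'⟩ := hy
    exact ⟨c + c', by rw [map_add, hc, hc', map_add]⟩
  | smul r x _ hx =>
    obtain ⟨c, hc⟩ := hx
    exact ⟨r * c, by rw [map_smul, hc, map_mul, Algebra.smul_def]⟩

omit [CharZero K] in
lemma V_eq (v : W) (hv : v ∈ P.V) :
    ∃ α : ι → K, v = ∑ k, α k • P.z k := by
  have := (Submodule.mem_span_range_iff_exists_fun K).mp hv
  obtain ⟨c, hc⟩ := this
  exact ⟨c, hc.symm⟩

omit [CharZero K] in
lemma D_pow (a : ι) (v : W) (c : K) (h : P.D a v = algebraMap K W c) (d : ℕ) :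
    P.D a (v ^ d) = ((d : K) * c) • v ^ (d - 1) := by
  induction d with
  | zero => simp [D_one]
  | succ d ih =>
    rw [pow_succ, D_mul, ih, h]
    cases d with
    | zero => simp [Algebra.smul_def]
    | succ d =>
      simp only [Nat.add_sub_cancel, smul_mul_assoc]
      rw [← pow_succ, ← Algebra.commutes, ← Algebra.smul_def, ← add_smul]
      push_cast
      ring_nf

lemma E_pow (v : W) (hv : v ∈ P.V) (d : ℕ) : P.E (v ^ d) = (d : K) • v ^ d := by
  obtain ⟨α, hα⟩ := P.V_eq v hv
  have hD : ∀ k, P.D k v = algebraMap K W (α k) := by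
    intro k
    rw [hα, map_sum]
    simp only [map_smul, D_z, smul_ite, smul_zero]
    rw [Finset.sum_ite_eq]
    simp [Algebra.algebraMap_eq_smul_one]
  cases d with
  | zero => simp [E_apply, D_one]
  | succ d =>
    rw [E_apply]
    have : ∀ k, jp K (P.z k) (P.D k (v ^ (d + 1))) =
        ((d + 1 : ℕ) : K) • jp K (α k • P.z k) (v ^ d) := by
      intro k
      rw [P.D_pow k v (α k) (hD k), map_smul, jp_smul_left, smul_smul, Nat.add_sub_cancel]
    simp only [this]
    have hjp : jp K v (v ^ d) = v ^ (d + 1) := by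
      rw [jp_apply, ← pow_succ', ← pow_succ, ← two_smul K (v ^ (d + 1)), smul_smul]
      norm_num
    rw [← Finset.smul_sum, ← jp_sum_left, ← hα, hjp]

lemma E_S (d : ℕ) (w : W) (hw : w ∈ P.S d) : P.E w = (d : K) • w := by
  induction hw using Submodule.span_induction with
  | mem x hx =>
    obtain ⟨v, hv, rfl⟩ := hx
    exact P.E_pow v hv d
  | zero => simp
  | add x y _ _ hx hy => rw [map_add, hx, hy, smul_add]
  | smul r x _ hx => rw [map_smul, hx, smul_comm]

/-- the potential `F` commutes with its derivatives -/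
lemma potential (d : ℕ) (H : ι → W) (hE : ∀ i, P.E (H i) = (d : K) • H i)
    (hA : ∀ i j, ad K (P.z i) (H j) = ad K (P.z j) (H i))
    (hB : ∀ i j, ad K (H i) (H j) = 0) :
    ∃ F : W, (∀ i, ad K F (P.z i) = H i) ∧ ∀ i, ad K F (H i) = 0 := by
  set G : ι → W := fun a => - ∑ i, P.oi a i • H i with hG
  have hHG : ∀ i, - ∑ a, P.om i a • G a = H i := by
    intro i
    simp only [hG, smul_neg, Finset.sum_neg_distrib, neg_neg, Finset.smul_sum, smul_smul]
    rw [Finset.sum_comm]
    simp only [← Finset.sum_smul, P.inv2]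
    simp
  have hEG : ∀ a, P.E (G a) = (d : K) • G a := by
    intro a
    simp only [hG, map_neg, map_sum, map_smul, hE, smul_neg, Finset.smul_sum]
    congr 1
    exact Finset.sum_congr rfl fun i _ => by rw [smul_comm]
  have hGG : ∀ a b, ad K (G a) (G b) = 0 := by
    intro a b
    have h1 : ∀ i, ad K (H i) (G b) = 0 := by
      intro i
      simp only [hG, map_neg, map_sum, map_smul, hB]
      simp
    rw [ad_swap]
    have : ad K (G b) (G a) = 0 := by
      conv_lhs => rw [hG]
      simp only [map_neg, map_sum, map_smul]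
      have : ∀ i, ad K (- ∑ i, P.oi b i • H i) (H i) = 0 := by
        intro i
        have := h1 i
        rw [ad_swap] at this
        have h3 := neg_eq_zero.mp this
        exact h3
      simp [this]
    rw [this, neg_zero]
  have hsym : ∀ a b, P.D b (G a) = P.D a (G b) := by
    intro a b
    simp only [hG, D_apply, map_neg, map_sum, map_smul, smul_neg, Finset.sum_neg_distrib,
      Finset.smul_sum, smul_smul]
    congr 1
    rw [Finset.sum_comm]
    refine Finset.sum_congr rfl fun i _ => Finset.sum_congr rfl fun j _ => ?_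
    rw [hA, mul_comm]
  have hd1 : ((d : K) + 1) ≠ 0 := by exact_mod_cast Nat.succ_ne_zero d
  set F : W := ((d : K) + 1)⁻¹ • ∑ a, jp K (P.z a) (G a) with hF
  have hDF : ∀ b, P.D b F = G b := by
    intro b
    simp only [hF, map_smul, map_sum, D_jp, Finset.sum_add_distrib, D_z]
    have h1 : ∑ a, jp K (if b = a then (1 : W) else 0) (G a) = G b := by
      rw [Finset.sum_eq_single b]
      · rw [if_pos rfl, jp_comm, jp_one]
      · intro c _ hc
        rw [if_neg (Ne.symm hc), jp_zero_left]
      · intro h; exact absurd (Finset.mem_univ _) h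
    have h2 : ∑ a, jp K (P.z a) (P.D b (G a)) = (d : K) • G b := by
      rw [← hEG b, E_apply]
      exact Finset.sum_congr rfl fun a _ => by rw [hsym]
    rw [h1, h2]
    have : G b + (d : K) • G b = ((d : K) + 1) • G b := by
      rw [add_smul, one_smul, add_comm]
    rw [this, smul_smul, inv_mul_cancel₀ hd1, one_smul]
  have hFz : ∀ i, ad K F (P.z i) = H i := by
    intro i
    rw [ad_swap, ad_z]
    simp only [hDF]
    exact hHG i
  -- main computation
  have hFG : ∀ j, ad K F (G j) = 0 := by
    intro j
    apply P.no_neg_one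
    set Y := ad K F (G j) with hY
    have hzG : ∀ a, ad K (P.z a) (G j) = ∑ k, P.om a k • P.D k (G j) := fun a => P.ad_z a _
    -- first expression
    have e1 : ((d : K) + 1) • Y = ∑ a, ∑ k, P.om a k • jp K (P.D k (G j)) (G a) := by
      have : ((d : K) + 1) • F = ∑ a, jp K (P.z a) (G a) := by
        rw [hF, smul_smul, mul_inv_cancel₀ hd1, one_smul]
      have h3 : ((d : K) + 1) • Y = - ad K (G j) (∑ a, jp K (P.z a) (G a)) := by
        rw [← this, map_smul, hY, ad_swap F, smul_neg]
      rw [h3, map_sum, ← Finset.sum_neg_distrib]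
      refine Finset.sum_congr rfl fun a _ => ?_
      rw [ad_jp, hGG, map_zero, add_zero, ad_swap (G j) (P.z a), hzG]
      rw [jp_comm, map_neg, map_sum, neg_neg]
      refine Finset.sum_congr rfl fun k _ => ?_
      rw [map_smul, jp_comm]
    have e2 : (d : K) • Y = (∑ k, jp K (ad K F (P.z k)) (P.D k (G j))) + P.E Y := by
      have h4 : (d : K) • Y = ad K F (P.E (G j)) := by rw [hEG, map_smul]
      rw [h4, E_apply, map_sum, E_apply, ← Finset.sum_add_distrib]
      refine Finset.sum_congr rfl fun k _ => ?_
      rw [ad_jp]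
      congr 2
      have h5 : P.D k (ad K F (G j)) = ad K (P.D k F) (G j) + ad K F (P.D k (G j)) := by
        simp only [ad_apply, map_sub, D_mul]; abel
      rw [hY, h5, hDF, hGG, zero_add]
    have e3 : (∑ k, jp K (ad K F (P.z k)) (P.D k (G j))) =
        ∑ a, ∑ k, P.om a k • jp K (P.D k (G j)) (G a) := by
      rw [Finset.sum_comm]
      refine Finset.sum_congr rfl fun k _ => ?_
      rw [ad_swap, ad_z]
      simp only [hDF]
      rw [← Finset.sum_neg_distrib, jp_sum_left]
      refine Finset.sum_congr rfl fun a _ => ?_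
      rw [← neg_smul, jp_smul_left, ← P.skew, jp_comm]
    rw [e3, ← e1] at e2
    have : (d : K) • Y - ((d : K) + 1) • Y = P.E Y := by rw [e2]; abel
    rw [← this, add_smul, one_smul]
    abel
  refine ⟨F, hFz, ?_⟩
  intro i
  rw [← hHG i, map_neg, map_sum]
  simp [hFG]

end WD

end Pool.Agent.H349R3
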