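import Mathlib
import Pool.Agent.H349R3.Main

set_option autoImplicit false

namespace Pool.Agent.H349R3

open Polynomial

variable {K : Type} [Field K] [CharZero K] {ι : Type} [Fintype ι] [DecidableEq ι]
  {W : Type} [Ring W] [Algebra K W]

namespace WD

variable (P : WD K ι W)

omit [CharZero K] in
lemma hom_ext {B : Type} [Ring B] [Algebra K B] (f g : W →ₐ[K] B) (h : ∀ i, f (P.z i) = g (P.z i)) :
    f = g := by
  have h1 : Set.EqOn f g (Set.range P.z) := by
    rintro _ ⟨i, rfl⟩; exact h i
  have h2 := AlgHom.ext_of_adjoin_eq_top P.gen h1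
  exact h2

omit [CharZero K] in
/-- the deformation `z i ↦ z i + t H i` -/
lemma exists_phi (H : ι → W)
    (hA : ∀ i j, ad K (P.z i) (H j) = ad K (P.z j) (H i))
    (hB : ∀ i j, ad K (H i) (H j) = 0) :
    ∃ Φ : W →ₐ[K] W[X], ∀ i, Φ (P.z i) = C (P.z i) + C (H i) * X := by
  apply P.lift
  intro i j
  have h1 : P.z i * H j - H j * P.z i = P.z j * H i - H i * P.z j := by
    have := hA i j
    rwa [ad_apply, ad_apply] at this
  have h2 : H i * H j - H j * H i = 0 := by
    have := hB i j
    rwa [ad_apply] at this
  have h3 := P.rel i j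
  have hX : ∀ w : W, (X : W[X]) * C w = C w * X := fun w => X_mul_C w
  have e : (C (P.z i) + C (H i) * X) * (C (P.z j) + C (H j) * X)
      - (C (P.z j) + C (H j) * X) * (C (P.z i) + C (H i) * X)
      = C (P.z i * P.z j - P.z j * P.z i)
        + C ((P.z i * H j - H j * P.z i) - (P.z j * H i - H i * P.z j)) * X
        + C (H i * H j - H j * H i) * X * X := by
    simp only [mul_add, add_mul, map_sub, map_mul, sub_mul]
    have a1 : C (H i) * X * C (P.z j) = C (H i) * C (P.z j) * X := by
      rw [mul_assoc, hX, mul_assoc]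
    have a2 : C (H j) * X * C (P.z i) = C (H j) * C (P.z i) * X := by
      rw [mul_assoc, hX, mul_assoc]
    have a3 : C (H i) * X * (C (H j) * X) = C (H i) * C (H j) * X * X := by
      rw [← mul_assoc, mul_assoc (C (H i)) X, hX, mul_assoc (C (H i)) (C (H j))]
    have a4 : C (H j) * X * (C (H i) * X) = C (H j) * C (H i) * X * X := by
      rw [← mul_assoc, mul_assoc (C (H j)) X, hX, mul_assoc (C (H j)) (C (H i))]
    rw [a1, a2, a3, a4]
    simp only [← mul_assoc]
    abel
  rw [e, h1, h2, h3]
  simp

/-- **Core theorem.** -/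
theorem core (d : ℕ) (H : ι → W) (hE : ∀ i, P.E (H i) = (d : K) • H i)
    (hA : ∀ i j, ad K (P.z i) (H j) = ad K (P.z j) (H i))
    (hB : ∀ i j, ad K (H i) (H j) = 0)
    (f : W →ₐ[K] W) (hf : ∀ i, f (P.z i) = P.z i + H i) : Function.Bijective f := by
  obtain ⟨F, hFz, hFH⟩ := P.potential d H hE hA hB
  obtain ⟨Φ, hΦ⟩ := P.exists_phi H hA hB
  -- derivative equation
  have hder : ∀ w : W, derivative (Φ w) = C F * Φ w - Φ w * C F := by
    intro w
    have hw : w ∈ Algebra.adjoin K (Set.range P.z) := by rw [P.gen]; trivial
    induction hw using Algebra.adjoin_induction with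
    | mem x hx =>
      obtain ⟨i, rfl⟩ := hx
      rw [hΦ]
      have h1 := hFz i
      have h2 := hFH i
      rw [ad_apply] at h1 h2
      have hX : (X : W[X]) * C F = C F * X := X_mul_C F
      have : C F * (C (P.z i) + C (H i) * X) - (C (P.z i) + C (H i) * X) * C F
          = C (F * P.z i - P.z i * F) + C (F * H i - H i * F) * X := by
        simp only [mul_add, add_mul, map_sub, map_mul, sub_mul]
        have a1 : C (H i) * X * C F = C (H i) * C F * X := by
          rw [mul_assoc, hX, mul_assoc]
        rw [a1, ← mul_assoc]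
        abel
      rw [this, h1, h2]
      simp
    | algebraMap r =>
      rw [AlgHom.commutes, Polynomial.algebraMap_apply, derivative_C, ← map_mul, ← map_mul,
        Algebra.commutes, sub_self]
    | add x y _ _ hx hy =>
      rw [map_add, map_add, hx, hy]
      simp only [mul_add, add_mul]; abel
    | mul x y _ _ hx hy =>
      rw [map_mul, derivative_mul, hx, hy]
      noncomm_ring
  -- evaluation maps
  have hev : ∀ t : K, ∃ ev : W[X] →ₐ[K] W, (∀ w, ev (C w) = w) ∧ ev X = algebraMap K W t := by
    intro t
    refine ⟨Polynomial.eval₂AlgHom (AlgHom.id K W) (algebraMap K W t)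
      (fun a => (Algebra.commutes t a).symm), ?_, ?_⟩
    · intro w; simp [Polynomial.eval₂AlgHom]
    · simp [Polynomial.eval₂AlgHom]
  -- `Φ` fixes `H`
  have h0 : ∀ w : W, (Φ w).coeff 0 = w := by
    intro w
    obtain ⟨ev, hev1, hev2⟩ := hev 0
    have h1 : ev.comp Φ = AlgHom.id K W := by
      apply P.hom_ext
      intro i
      rw [AlgHom.comp_apply, hΦ, map_add, map_mul, hev1, hev1, hev2]
      simp
    have h2 : ∀ p : W[X], ev p = p.coeff 0 := by
      intro p
      induction p using Polynomial.induction_on' with
      | add p q hp hq => rw [map_add, hp, hq, coeff_add]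
      | monomial n a =>
        rw [← C_mul_X_pow_eq_monomial, map_mul, hev1, map_pow, hev2, map_zero]
        cases n with
        | zero => simp
        | succ n => simp
    rw [← h2]
    have := DFunLike.congr_fun h1 w
    simpa using this
  have hΦH : ∀ i, Φ (H i) = C (H i) := by
    intro i
    have hc : ∀ k, (Φ (H i)).coeff (k + 1) = 0 := by
      intro k
      have hk1 : ((k : K) + 1) ≠ 0 := by exact_mod_cast Nat.succ_ne_zero k
      have hstep : ((k : K) + 1) • (Φ (H i)).coeff (k + 1)
          = F * (Φ (H i)).coeff k - (Φ (H i)).coeff k * F := by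
        have := congrArg (fun p => coeff p k) (hder (H i))
        simp only [coeff_derivative, coeff_sub, coeff_C_mul, coeff_mul_C] at this
        rw [← this, Algebra.smul_def]
        push_cast
        have hcm : (Φ (H i)).coeff (k + 1) * ((k : W) + 1) = ((k : W) + 1) * (Φ (H i)).coeff (k + 1) := by
          have := Nat.cast_commute (k + 1) ((Φ (H i)).coeff (k + 1))
          have h3 := this.eq
          push_cast at h3
          exact h3.symm
        rw [hcm]
      induction k with
      | zero =>
        rw [h0] at hstep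
        have h2 := hFH i
        rw [ad_apply] at h2
        rw [h2] at hstep
        exact (smul_eq_zero.mp hstep).resolve_left hk1
      | succ k ih =>
        have hk2 : ((k : K) + 1) ≠ 0 := by exact_mod_cast Nat.succ_ne_zero k
        have hprev : (Φ (H i)).coeff (k + 1) = 0 := by
          apply ih hk2
          have := congrArg (fun p => coeff p k) (hder (H i))
          simp only [coeff_derivative, coeff_sub, coeff_C_mul, coeff_mul_C] at this
          rw [← this, Algebra.smul_def]
          push_cast
          have hcm : (Φ (H i)).coeff (k + 1) * ((k : W) + 1) = ((k : W) + 1) * (Φ (H i)).coeff (k + 1) := by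
            have := Nat.cast_commute (k + 1) ((Φ (H i)).coeff (k + 1))
            have h3 := this.eq
            push_cast at h3
            exact h3.symm
          rw [hcm]
        rw [hprev] at hstep
        rw [mul_zero, zero_mul, sub_zero] at hstep
        exact (smul_eq_zero.mp hstep).resolve_left hk1
    ext k
    cases k with
    | zero => rw [h0]; simp
    | succ k => rw [hc, coeff_C_succ]
  -- the inverse
  obtain ⟨ev1, h11, h12⟩ := hev 1
  obtain ⟨ev2, h21, h22⟩ := hev (-1)
  have hfev : f = ev1.comp Φ := by
    apply P.hom_ext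
    intro i
    rw [AlgHom.comp_apply, hΦ, map_add, map_mul, h11, h11, h12, hf]
    simp
  set ψ := ev2.comp Φ with hψ
  have hψz : ∀ i, ψ (P.z i) = P.z i - H i := by
    intro i
    rw [hψ, AlgHom.comp_apply, hΦ, map_add, map_mul, h21, h21, h22]
    simp [sub_eq_add_neg]
  have hψH : ∀ i, ψ (H i) = H i := by
    intro i
    rw [hψ, AlgHom.comp_apply, hΦH, h21]
  have hfH : ∀ i, f (H i) = H i := by
    intro i
    rw [hfev, AlgHom.comp_apply, hΦH, h11]
  have c1 : f.comp ψ = AlgHom.id K W := by
    apply P.hom_ext
    intro i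
    rw [AlgHom.comp_apply, hψz, map_sub, hf, hfH]
    simp
  have c2 : ψ.comp f = AlgHom.id K W := by
    apply P.hom_ext
    intro i
    rw [AlgHom.comp_apply, hf, map_add, hψz, hψH]
    simp
  refine ⟨?_, ?_⟩
  · intro x y hxy
    have h1 := DFunLike.congr_fun c2 x
    have h2 := DFunLike.congr_fun c2 y
    simp only [AlgHom.comp_apply, AlgHom.id_apply] at h1 h2
    rw [← h1, ← h2, hxy]
  · intro y
    refine ⟨ψ y, ?_⟩
    have h1 := DFunLike.congr_fun c1 y
    simpa using h1

end WD

end Pool.Agent.H349R3
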