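import Mathlib
import Pool.Agent.H349R3.Poly

set_option autoImplicit false

namespace Pool.Agent.H349R3

open MulOpposite

variable {K : Type} [Field K] [CharZero K] {ι : Type} [Fintype ι] [DecidableEq ι]
  {W : Type} [Ring W] [Algebra K W]

/-- the matrix `[[0,-w],[w,0]]` -/
def J (w : W) : Matrix (Fin 2) (Fin 2) W := !![0, -w; w, 0]

/-- the scalar matrix `w` -/
def Dg (w : W) : Matrix (Fin 2) (Fin 2) W := !![w, 0; 0, w]

omit [Algebra K W] in
lemma J_mul_J (a b : W) : J a * J b = - Dg (a * b) := by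
  ext i j; fin_cases i <;> fin_cases j <;> simp [J, Dg, Matrix.mul_apply, Fin.sum_univ_two]

lemma Dg_mul_J (a b : W) : Dg a * J b = J (a * b) := by
  ext i j; fin_cases i <;> fin_cases j <;> simp [J, Dg, Matrix.mul_apply, Fin.sum_univ_two]

lemma J_mul_Dg (a b : W) : J a * Dg b = J (a * b) := by
  ext i j; fin_cases i <;> fin_cases j <;> simp [J, Dg, Matrix.mul_apply, Fin.sum_univ_two]

lemma Dg_mul_Dg (a b : W) : Dg a * Dg b = Dg (a * b) := by
  ext i j; fin_cases i <;> fin_cases j <;> simp [Dg, Matrix.mul_apply, Fin.sum_univ_two]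

lemma J_add (a b : W) : J (a + b) = J a + J b := by
  ext i j; fin_cases i <;> fin_cases j <;> simp [J]; abel

lemma Dg_add (a b : W) : Dg (a + b) = Dg a + Dg b := by
  ext i j; fin_cases i <;> fin_cases j <;> simp [Dg]

lemma J_sub (a b : W) : J (a - b) = J a - J b := by
  ext i j; fin_cases i <;> fin_cases j <;> simp [J]; abel

lemma Dg_sub (a b : W) : Dg (a - b) = Dg a - Dg b := by
  ext i j; fin_cases i <;> fin_cases j <;> simp [Dg]

lemma J_zero : J (0 : W) = 0 := by
  ext i j; fin_cases i <;> fin_cases j <;> simp [J]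

lemma Dg_zero : Dg (0 : W) = 0 := by
  ext i j; fin_cases i <;> fin_cases j <;> simp [Dg]

lemma Dg_one : Dg (1 : W) = 1 := by
  ext i j; fin_cases i <;> fin_cases j <;> simp [Dg]

omit [CharZero K] in
lemma J_smul (c : K) (a : W) : J (c • a) = c • J a := by
  ext i j; fin_cases i <;> fin_cases j <;> simp [J]

omit [CharZero K] in
lemma Dg_smul (c : K) (a : W) : Dg (c • a) = c • Dg a := by
  ext i j; fin_cases i <;> fin_cases j <;> simp [Dg]

omit [CharZero K] in
lemma Dg_algebraMap (r : K) :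
    algebraMap K (Matrix (Fin 2) (Fin 2) W) r = Dg (algebraMap K W r) := by
  rw [Algebra.algebraMap_eq_smul_one, Algebra.algebraMap_eq_smul_one, Dg_smul, Dg_one]

omit [CharZero K] in
lemma J_pow_even (v : W) (e : ℕ) : J v ^ (2 * e) = ((-1 : K) ^ e) • Dg (v ^ (2 * e)) := by
  induction e with
  | zero => simp [Dg_one]
  | succ e ih =>
    rw [show 2 * (e + 1) = 2 * e + 1 + 1 by ring, pow_succ, pow_succ, ih, smul_mul_assoc,
      smul_mul_assoc, Dg_mul_J, J_mul_J, ← pow_succ, ← pow_succ, pow_succ (-1 : K) e, mul_smul,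
      neg_smul, one_smul]

omit [CharZero K] in
lemma J_pow_odd (v : W) (e : ℕ) : J v ^ (2 * e + 1) = ((-1 : K) ^ e) • J (v ^ (2 * e + 1)) := by
  rw [pow_succ, J_pow_even (K := K), smul_mul_assoc, Dg_mul_J, ← pow_succ]

namespace WD

variable (P : WD K ι W)

omit [CharZero K] in
lemma exists_theta : ∃ Θ : W →ₐ[K] (Matrix (Fin 2) (Fin 2) W)ᵐᵒᵖ,
    ∀ i, Θ (P.z i) = op (J (P.z i)) := by
  apply P.lift
  intro i j
  rw [← op_mul, ← op_mul, ← op_sub, J_mul_J, J_mul_J, neg_sub_neg, ← Dg_sub, P.rel,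
    MulOpposite.algebraMap_apply, Dg_algebraMap]

omit [CharZero K] in
lemma theta_V (Θ : W →ₐ[K] (Matrix (Fin 2) (Fin 2) W)ᵐᵒᵖ)
    (hΘ : ∀ i, Θ (P.z i) = op (J (P.z i))) (v : W) (hv : v ∈ P.V) : Θ v = op (J v) := by
  induction hv using Submodule.span_induction with
  | mem x hx =>
    obtain ⟨i, rfl⟩ := hx
    exact hΘ i
  | zero => rw [map_zero, J_zero, op_zero]
  | add x y _ _ hx hy => rw [map_add, hx, hy, J_add, op_add]
  | smul r x _ hx => rw [map_smul, hx, J_smul, op_smul]

omit [CharZero K] in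
lemma theta_even (Θ : W →ₐ[K] (Matrix (Fin 2) (Fin 2) W)ᵐᵒᵖ)
    (hΘ : ∀ i, Θ (P.z i) = op (J (P.z i))) (e : ℕ) (w : W) (hw : w ∈ P.S (2 * e)) :
    Θ w = op (((-1 : K) ^ e) • Dg w) := by
  induction hw using Submodule.span_induction with
  | mem x hx =>
    obtain ⟨v, hv, rfl⟩ := hx
    rw [map_pow, P.theta_V Θ hΘ v hv, ← op_pow, J_pow_even (K := K)]
  | zero => rw [map_zero, Dg_zero, smul_zero, op_zero]
  | add x y _ _ hx hy => rw [map_add, hx, hy, Dg_add, smul_add, op_add]
  | smul r x _ hx => rw [map_smul, hx, Dg_smul, ← op_smul, smul_comm]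

omit [CharZero K] in
lemma theta_odd (Θ : W →ₐ[K] (Matrix (Fin 2) (Fin 2) W)ᵐᵒᵖ)
    (hΘ : ∀ i, Θ (P.z i) = op (J (P.z i))) (e : ℕ) (w : W) (hw : w ∈ P.S (2 * e + 1)) :
    Θ w = op (((-1 : K) ^ e) • J w) := by
  induction hw using Submodule.span_induction with
  | mem x hx =>
    obtain ⟨v, hv, rfl⟩ := hx
    rw [map_pow, P.theta_V Θ hΘ v hv, ← op_pow, J_pow_odd (K := K)]
  | zero => rw [map_zero, J_zero, smul_zero, op_zero]
  | add x y _ _ hx hy => rw [map_add, hx, hy, J_add, smul_add, op_add]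
  | smul r x _ hx => rw [map_smul, hx, J_smul, ← op_smul, smul_comm]

/-- separation, even degree -/
lemma sep_even (e : ℕ) (L H : ι → W) (hL : ∀ i, L i ∈ P.V) (hH : ∀ i, H i ∈ P.S (2 * e))
    (hR : ∀ i j, (L i + H i) * (L j + H j) - (L j + H j) * (L i + H i)
      = algebraMap K W (P.om i j)) (i j : ι) :
    L i * L j - L j * L i = algebraMap K W (P.om i j) ∧
    (L i * H j - H j * L i) + (H i * L j - L j * H i) = 0 ∧
    H i * H j - H j * H i = 0 := by
  obtain ⟨Θ, hΘ⟩ := P.exists_theta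
  have hR' := hR i j
  have h1 := congrArg Θ hR'
  have s2 : ((-1 : K) ^ e) * ((-1 : K) ^ e) = 1 := by
    rw [← mul_pow]; simp
  rw [map_sub, map_mul, map_mul, map_add, map_add, P.theta_V Θ hΘ _ (hL i),
    P.theta_V Θ hΘ _ (hL j), P.theta_even Θ hΘ e _ (hH i), P.theta_even Θ hΘ e _ (hH j),
    AlgHom.commutes, MulOpposite.algebraMap_apply, Dg_algebraMap, ← op_add, ← op_add, ← op_mul,
    ← op_mul, ← op_sub] at h1
  have h2 := op_injective h1
  have hcomp : (J (L j) + ((-1 : K) ^ e) • Dg (H j)) * (J (L i) + ((-1 : K) ^ e) • Dg (H i))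
      - (J (L i) + ((-1 : K) ^ e) • Dg (H i)) * (J (L j) + ((-1 : K) ^ e) • Dg (H j))
      = Dg ((L i * L j - L j * L i) - (H i * H j - H j * H i))
        - ((-1 : K) ^ e) • J ((L i * H j - H j * L i) + (H i * L j - L j * H i)) := by
    simp only [mul_add, add_mul, J_mul_J, mul_smul_comm, smul_mul_assoc, J_mul_Dg, Dg_mul_J,
      Dg_mul_Dg, smul_smul, s2, one_smul, Dg_sub, J_add, J_sub, smul_sub, smul_add]
    abel
  rw [hcomp] at h2
  have h00 := congrFun (congrFun h2 0) 0
  have h10 := congrFun (congrFun h2 1) 0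
  simp only [Matrix.sub_apply, Matrix.smul_apply, Dg, J, Matrix.of_apply, Matrix.cons_val_zero,
    Matrix.cons_val_one, Matrix.cons_val', Matrix.cons_val_fin_one] at h00 h10
  have hs : ((-1 : K) ^ e) ≠ 0 := pow_ne_zero _ (by norm_num)
  have hcross : (L i * H j - H j * L i) + (H i * L j - L j * H i) = 0 := by
    rw [zero_sub, neg_eq_zero] at h10
    exact (smul_eq_zero.mp h10).resolve_left hs
  rw [smul_zero, sub_zero] at h00
  have hR2 : (L i * L j - L j * L i) + (H i * H j - H j * H i) = algebraMap K W (P.om i j) := by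
    have h5 : (L i * L j - L j * L i) + (H i * H j - H j * H i)
        + ((L i * H j - H j * L i) + (H i * L j - L j * H i)) = algebraMap K W (P.om i j) := by
      rw [← hR']; noncomm_ring
    rw [hcross, add_zero] at h5
    exact h5
  have h3 : (2 : K) • (H i * H j - H j * H i) = 0 := by
    rw [two_smul]
    have := congrArg₂ (fun a b : W => a - b) hR2 h00
    simp only [sub_self] at this
    rw [← this]; abel
  have hHH := (smul_eq_zero.mp h3).resolve_left (by norm_num)
  refine ⟨?_, hcross, hHH⟩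
  rw [← hR2, hHH, add_zero]

/-- separation, odd degree `d = 2 e + 1`, `e` odd -/
lemma sep_odd (e : ℕ) (he : Odd e) (L H : ι → W) (hL : ∀ i, L i ∈ P.V)
    (hH : ∀ i, H i ∈ P.S (2 * e + 1))
    (hR : ∀ i j, (L i + H i) * (L j + H j) - (L j + H j) * (L i + H i)
      = algebraMap K W (P.om i j)) (i j : ι) :
    (L i * H j - H j * L i) + (H i * L j - L j * H i) = 0 := by
  obtain ⟨Θ, hΘ⟩ := P.exists_theta
  have hR' := hR i j
  have h1 := congrArg Θ hR'
  have s1 : ((-1 : K) ^ e) = -1 := he.neg_one_pow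
  rw [map_sub, map_mul, map_mul, map_add, map_add, P.theta_V Θ hΘ _ (hL i),
    P.theta_V Θ hΘ _ (hL j), P.theta_odd Θ hΘ e _ (hH i), P.theta_odd Θ hΘ e _ (hH j),
    AlgHom.commutes, MulOpposite.algebraMap_apply, Dg_algebraMap, ← op_add, ← op_add, ← op_mul,
    ← op_mul, ← op_sub, s1] at h1
  have h2 := op_injective h1
  have hcomp : (J (L j) + (-1 : K) • J (H j)) * (J (L i) + (-1 : K) • J (H i))
      - (J (L i) + (-1 : K) • J (H i)) * (J (L j) + (-1 : K) • J (H j))
      = Dg ((L i * L j - L j * L i) + (H i * H j - H j * H i)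
        - ((L i * H j - H j * L i) + (H i * L j - L j * H i))) := by
    simp only [neg_smul, one_smul, mul_add, add_mul, J_mul_J, mul_neg, neg_mul, neg_neg,
      Dg_add, Dg_sub]
    abel
  rw [hcomp] at h2
  have h00 := congrFun (congrFun h2 0) 0
  simp only [Dg, Matrix.of_apply, Matrix.cons_val_zero, Matrix.cons_val_one, Matrix.cons_val',
    Matrix.cons_val_fin_one] at h00
  have h3 : (2 : K) • ((L i * H j - H j * L i) + (H i * L j - L j * H i)) = 0 := by
    have := congrArg₂ (fun a b : W => a - b) hR' h00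
    simp only [sub_self] at this
    rw [← this, two_smul]
    noncomm_ring
  exact (smul_eq_zero.mp h3).resolve_left (by norm_num)

end WD

end Pool.Agent.H349R3
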