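import Mathlib
import Pool.Agent.H349R3.Sep

set_option autoImplicit false

namespace Pool.Agent.H349R3

variable {K : Type} [Field K] [CharZero K] {ι : Type} [Fintype ι] [DecidableEq ι]
  {W : Type} [Ring W] [Algebra K W]

namespace WD

variable (P : WD K ι W)

omit [CharZero K] in
/-- commutator of two linear forms -/
lemma comm_lin (α β : ι → K) :
    (∑ k, α k • P.z k) * (∑ m, β m • P.z m) - (∑ m, β m • P.z m) * (∑ k, α k • P.z k)
      = algebraMap K W (∑ k, ∑ m, α k * P.om k m * β m) := by
  have h1 : (∑ k, α k • P.z k) * (∑ m, β m • P.z m) =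
      ∑ k, ∑ m, (α k * β m) • (P.z k * P.z m) := by
    rw [Finset.sum_mul_sum]
    refine Finset.sum_congr rfl fun k _ => Finset.sum_congr rfl fun m _ => ?_
    rw [smul_mul_smul_comm]
  have h2 : (∑ m, β m • P.z m) * (∑ k, α k • P.z k) =
      ∑ k, ∑ m, (α k * β m) • (P.z m * P.z k) := by
    rw [Finset.sum_mul_sum, Finset.sum_comm]
    refine Finset.sum_congr rfl fun k _ => Finset.sum_congr rfl fun m _ => ?_
    rw [smul_mul_smul_comm, mul_comm]
  rw [h1, h2, ← Finset.sum_sub_distrib, map_sum]
  refine Finset.sum_congr rfl fun k _ => ?_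
  rw [← Finset.sum_sub_distrib, map_sum]
  refine Finset.sum_congr rfl fun m _ => ?_
  rw [← smul_sub, P.rel, Algebra.smul_def, ← map_mul]
  congr 1
  ring

omit [CharZero K] in
/-- linear symplectic maps are automorphisms -/
lemma exists_lin [Nontrivial W] (L : ι → W) (hL : ∀ i, L i ∈ P.V)
    (hLL : ∀ i j, L i * L j - L j * L i = algebraMap K W (P.om i j)) :
    ∃ σ τ : W →ₐ[K] W, (∀ i, σ (P.z i) = L i) ∧ σ.comp τ = AlgHom.id K W ∧
      τ.comp σ = AlgHom.id K W ∧ ∀ v ∈ P.V, τ v ∈ P.V := by
  choose ℓ hℓ using fun i => P.V_eq (L i) (hL i)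
  -- matrices
  let M : Matrix ι ι K := Matrix.of ℓ
  let Om : Matrix ι ι K := Matrix.of P.om
  let Oi : Matrix ι ι K := Matrix.of P.oi
  have hOO : Om * Oi = 1 := by
    ext a b
    simp only [Om, Oi, Matrix.mul_apply, Matrix.of_apply, Matrix.one_apply]
    exact P.inv2 a b
  have hMOM : M * Om * M.transpose = Om := by
    ext a b
    have h1 := hLL a b
    rw [hℓ a, hℓ b, P.comm_lin] at h1
    have h2 := (algebraMap K W).injective h1
    simp only [M, Om, Matrix.mul_apply, Matrix.of_apply, Matrix.transpose_apply]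
    rw [← h2, Finset.sum_comm]
    refine Finset.sum_congr rfl fun k _ => ?_
    rw [Finset.sum_mul]
  set N : Matrix ι ι K := Om * M.transpose * Oi with hN
  have hMN : M * N = 1 := by
    rw [hN, ← Matrix.mul_assoc, ← Matrix.mul_assoc, hMOM, hOO]
  have hNM : N * M = 1 := mul_eq_one_comm.mp hMN
  have hNON : N * Om * N.transpose = Om := by
    have hT : M.transpose * N.transpose = 1 := by
      rw [← Matrix.transpose_mul, hNM, Matrix.transpose_one]
    calc N * Om * N.transpose = N * (M * Om * M.transpose) * N.transpose := by rw [hMOM]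
      _ = (N * M) * Om * (M.transpose * N.transpose) := by
        simp only [Matrix.mul_assoc]
      _ = Om := by rw [hNM, hT, Matrix.one_mul, Matrix.mul_one]
  obtain ⟨σ, hσ⟩ := P.lift W L hLL
  obtain ⟨τ, hτ⟩ := P.lift W (fun i => ∑ j, N i j • P.z j) (by
    intro i j
    rw [P.comm_lin]
    congr 1
    have := congrFun (congrFun hNON i) j
    simp only [Om, Matrix.mul_apply, Matrix.of_apply, Matrix.transpose_apply] at this
    rw [← this, Finset.sum_comm]
    refine Finset.sum_congr rfl fun k _ => ?_
    rw [Finset.sum_mul])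
  refine ⟨σ, τ, hσ, ?_, ?_, ?_⟩
  · apply P.hom_ext
    intro i
    rw [AlgHom.comp_apply, hτ, map_sum, AlgHom.id_apply]
    simp only [map_smul, hσ, hℓ, Finset.smul_sum, smul_smul]
    rw [Finset.sum_comm]
    have : ∀ k, ∑ j, (N i j * ℓ j k) • P.z k = (if i = k then (1 : K) else 0) • P.z k := by
      intro k
      rw [← Finset.sum_smul]
      have := congrFun (congrFun hNM i) k
      simp only [M, Matrix.mul_apply, Matrix.of_apply, Matrix.one_apply] at this
      rw [this]
    simp only [this]
    simp
  · apply P.hom_ext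
    intro i
    rw [AlgHom.comp_apply, hσ, hℓ, map_sum, AlgHom.id_apply]
    simp only [map_smul, hτ, Finset.smul_sum, smul_smul]
    rw [Finset.sum_comm]
    have : ∀ k, ∑ j, (ℓ i j * N j k) • P.z k = (if i = k then (1 : K) else 0) • P.z k := by
      intro k
      rw [← Finset.sum_smul]
      have := congrFun (congrFun hMN i) k
      simp only [M, Matrix.mul_apply, Matrix.of_apply, Matrix.one_apply] at this
      rw [this]
    simp only [this]
    simp
  · intro v hv
    induction hv using Submodule.span_induction with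
    | mem x hx =>
      obtain ⟨i, rfl⟩ := hx
      rw [hτ]
      refine Submodule.sum_mem _ fun j _ => Submodule.smul_mem _ _ ?_
      exact Submodule.subset_span ⟨j, rfl⟩
    | zero => rw [map_zero]; exact zero_mem _
    | add x y _ _ hx hy => rw [map_add]; exact add_mem hx hy
    | smul r x _ hx => rw [map_smul]; exact Submodule.smul_mem _ _ hx

omit [CharZero K] in
lemma map_S (τ : W →ₐ[K] W) (hτ : ∀ v ∈ P.V, τ v ∈ P.V) (d : ℕ) (w : W) (hw : w ∈ P.S d) :
    τ w ∈ P.S d := by
  induction hw using Submodule.span_induction with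
  | mem x hx =>
    obtain ⟨v, hv, rfl⟩ := hx
    rw [map_pow]
    exact Submodule.subset_span ⟨τ v, hτ v hv, rfl⟩
  | zero => rw [map_zero]; exact zero_mem _
  | add x y _ _ hx hy => rw [map_add]; exact add_mem hx hy
  | smul r x _ hx => rw [map_smul]; exact Submodule.smul_mem _ _ hx

/-- core theorem with an arbitrary affine part -/
theorem core2 (d : ℕ) (c : ι → K) (L H : ι → W) (hL : ∀ i, L i ∈ P.V) (hH : ∀ i, H i ∈ P.S d)
    (hLL : ∀ i j, L i * L j - L j * L i = algebraMap K W (P.om i j))
    (hA : ∀ i j, (L i * H j - H j * L i) + (H i * L j - L j * H i) = 0)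
    (hB : ∀ i j, H i * H j - H j * H i = 0)
    (f : W →ₐ[K] W) (hf : ∀ i, f (P.z i) = algebraMap K W (c i) + L i + H i) :
    Function.Bijective f := by
  rcases subsingleton_or_nontrivial W with hW | hW
  · refine ⟨fun x y _ => Subsingleton.elim _ _, fun y => ⟨y, Subsingleton.elim _ _⟩⟩
  obtain ⟨σ, τ, hσ, hστ, hτσ, hτV⟩ := P.exists_lin L hL hLL
  have hτσ' : ∀ w, τ (σ w) = w := fun w => DFunLike.congr_fun hτσ w
  have hστ' : ∀ w, σ (τ w) = w := fun w => DFunLike.congr_fun hστ w
  have hτL : ∀ i, τ (L i) = P.z i := fun i => by rw [← hσ, hτσ']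
  -- translations
  have htr : ∀ c : ι → K, ∃ s : W →ₐ[K] W, ∀ i, s (P.z i) = P.z i + algebraMap K W (c i) := by
    intro c
    apply P.lift
    intro i j
    rw [← P.rel i j]
    have h1 := Algebra.commutes (c i) (P.z j)
    have h2 := Algebra.commutes (c j) (P.z i)
    have h3 := Algebra.commutes (c i) (algebraMap K W (c j))
    simp only [mul_add, add_mul]
    rw [h1, h2, h3]
    abel
  obtain ⟨s, hs⟩ := htr (fun i => - c i)
  obtain ⟨t, ht⟩ := htr c
  have hst : s.comp t = AlgHom.id K W := by
    apply P.hom_ext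
    intro i
    rw [AlgHom.comp_apply, ht, map_add, hs, AlgHom.commutes, map_neg, AlgHom.id_apply]
    abel
  have hts : t.comp s = AlgHom.id K W := by
    apply P.hom_ext
    intro i
    rw [AlgHom.comp_apply, hs, map_add, ht, AlgHom.commutes, map_neg, AlgHom.id_apply]
    abel
  have hst' : ∀ w, s (t w) = w := fun w => DFunLike.congr_fun hst w
  have hts' : ∀ w, t (s w) = w := fun w => DFunLike.congr_fun hts w
  -- the reduced map
  set h : W →ₐ[K] W := (τ.comp f).comp s with hh
  have hhz : ∀ i, h (P.z i) = P.z i + τ (H i) := by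
    intro i
    rw [hh, AlgHom.comp_apply, AlgHom.comp_apply, hs, map_add, map_add, hf, AlgHom.commutes,
      AlgHom.commutes, map_add, map_add, AlgHom.commutes, hτL, map_neg]
    abel
  have hbij : Function.Bijective h := by
    apply P.core d (fun i => τ (H i)) (fun i => P.E_S d _ (P.map_S τ hτV d _ (hH i))) _ _ h hhz
    · intro i j
      have h1 := congrArg τ (hA i j)
      rw [map_add, map_sub, map_sub, map_mul, map_mul, map_mul, map_mul, hτL, hτL, map_zero] at h1
      rw [ad_apply, ad_apply]
      rw [← sub_eq_zero, ← h1]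
      abel
    · intro i j
      have h1 := congrArg τ (hB i j)
      rw [map_sub, map_mul, map_mul, map_zero] at h1
      rw [ad_apply]
      exact h1
  have hfe : ∀ w, f w = σ (h (t w)) := by
    intro w
    rw [hh, AlgHom.comp_apply, AlgHom.comp_apply, hst', hστ']
  have hσb : Function.Bijective σ :=
    ⟨fun x y hxy => by rw [← hτσ' x, ← hτσ' y, hxy], fun y => ⟨τ y, hστ' y⟩⟩
  have htb : Function.Bijective t :=
    ⟨fun x y hxy => by rw [← hst' x, ← hst' y, hxy], fun y => ⟨s y, hts' y⟩⟩
  have : (f : W → W) = σ ∘ h ∘ t := by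
    funext w
    exact hfe w
  rw [this]
  exact hσb.comp (hbij.comp htb)

/-- the general theorem -/
theorem general (d : ℕ) (c : ι → K) (L H : ι → W) (hL : ∀ i, L i ∈ P.V) (hH : ∀ i, H i ∈ P.S d)
    (f : W →ₐ[K] W) (hf : ∀ i, f (P.z i) = algebraMap K W (c i) + L i + H i)
    (hyp : Even d ∨
      (d % 4 = 3 ∧ ∀ i j, L i * L j - L j * L i = algebraMap K W (P.om i j)) ∨
      ((∀ i j, L i * L j - L j * L i = algebraMap K W (P.om i j)) ∧
        ∀ i j, H i * H j = H j * H i)) :
    Function.Bijective f := by
  have hR : ∀ i j, (L i + H i) * (L j + H j) - (L j + H j) * (L i + H i)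
      = algebraMap K W (P.om i j) := by
    intro i j
    have h1 := congrArg f (P.rel i j)
    rw [map_sub, map_mul, map_mul, hf, hf, AlgHom.commutes] at h1
    rw [← h1]
    have e1 := Algebra.commutes (c i) (L j + H j)
    have e2 := Algebra.commutes (c j) (L i + H i)
    have e3 := Algebra.commutes (c i) (algebraMap K W (c j))
    have e4 : (algebraMap K W (c i) + L i + H i) * (algebraMap K W (c j) + L j + H j)
        - (algebraMap K W (c j) + L j + H j) * (algebraMap K W (c i) + L i + H i)
        = ((L i + H i) * (L j + H j) - (L j + H j) * (L i + H i))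
          + (algebraMap K W (c i) * (L j + H j) - (L j + H j) * algebraMap K W (c i))
          - (algebraMap K W (c j) * (L i + H i) - (L i + H i) * algebraMap K W (c j))
          + (algebraMap K W (c i) * algebraMap K W (c j)
            - algebraMap K W (c j) * algebraMap K W (c i)) := by
      noncomm_ring
    rw [e4, e1, e2, e3]
    abel
  rcases hyp with he | ⟨hd, hLL⟩ | ⟨hLL, hB⟩
  · obtain ⟨e, rfl⟩ := he
    rw [← two_mul] at hH
    have hsep := P.sep_even e L H hL hH hR
    exact P.core2 (2 * e) c L H hL hH (fun i j => (hsep i j).1) (fun i j => (hsep i j).2.1)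
      (fun i j => (hsep i j).2.2) f hf
  · obtain ⟨e, he, rfl⟩ : ∃ e, Odd e ∧ d = 2 * e + 1 := by
      refine ⟨d / 2, ?_, by omega⟩
      rw [Nat.odd_iff]
      omega
    have hA := P.sep_odd e he L H hL hH hR
    refine P.core2 (2 * e + 1) c L H hL hH hLL hA ?_ f hf
    intro i j
    have h1 := hR i j
    have h2 : (L i + H i) * (L j + H j) - (L j + H j) * (L i + H i)
        = (L i * L j - L j * L i) + ((L i * H j - H j * L i) + (H i * L j - L j * H i))
          + (H i * H j - H j * H i) := by noncomm_ring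
    rw [h2, hA i j, hLL i j, add_zero] at h1
    exact left_eq_add.mp h1.symm
  · refine P.core2 d c L H hL hH hLL ?_ (fun i j => by rw [hB, sub_self]) f hf
    intro i j
    have h1 := hR i j
    have h2 : (L i + H i) * (L j + H j) - (L j + H j) * (L i + H i)
        = (L i * L j - L j * L i) + ((L i * H j - H j * L i) + (H i * L j - L j * H i))
          + (H i * H j - H j * H i) := by noncomm_ring
    rw [h2, hLL i j, hB i j, sub_self, add_zero] at h1
    exact left_eq_add.mp h1.symm

end WD

end Pool.Agent.H349R3
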