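import Mathlib
import Pool.Agent.H349R3.Lin

set_option autoImplicit false

namespace Pool.Agent.H349R3

/-- The defining relations of the `n`-th Weyl algebra (for `n = 2` exactly those of the frozen
statement): `x i x j = x j x i`, `y i y j = y j y i`, `y i x j = x j y i + δ i j`. -/
def WRel (K : Type) [Field K] (n : ℕ) :
    FreeAlgebra K (Fin n ⊕ Fin n) → FreeAlgebra K (Fin n ⊕ Fin n) → Prop :=
  fun a b => ∃ i j : Fin n,
    (a = FreeAlgebra.ι K (Sum.inl i : Fin n ⊕ Fin n) * FreeAlgebra.ι K (Sum.inl j : Fin n ⊕ Fin n) ∧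
      b = FreeAlgebra.ι K (Sum.inl j : Fin n ⊕ Fin n) * FreeAlgebra.ι K (Sum.inl i : Fin n ⊕ Fin n)) ∨
    (a = FreeAlgebra.ι K (Sum.inr i : Fin n ⊕ Fin n) * FreeAlgebra.ι K (Sum.inr j : Fin n ⊕ Fin n) ∧
      b = FreeAlgebra.ι K (Sum.inr j : Fin n ⊕ Fin n) * FreeAlgebra.ι K (Sum.inr i : Fin n ⊕ Fin n)) ∨
    (a = FreeAlgebra.ι K (Sum.inr i : Fin n ⊕ Fin n) * FreeAlgebra.ι K (Sum.inl j : Fin n ⊕ Fin n) ∧
      b = FreeAlgebra.ι K (Sum.inl j : Fin n ⊕ Fin n) * FreeAlgebra.ι K (Sum.inr i : Fin n ⊕ Fin n) +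
        (if i = j then (1 : FreeAlgebra K (Fin n ⊕ Fin n)) else 0))

/-- The `n`-th Weyl algebra over `K`. -/
abbrev Weyl (K : Type) [Field K] (n : ℕ) : Type := RingQuot (WRel K n)

/-- The generators of the Weyl algebra: `gn (inl i) = x i`, `gn (inr i) = y i`. -/
def gn (K : Type) [Field K] (n : ℕ) (s : Fin n ⊕ Fin n) : Weyl K n :=
  RingQuot.mkAlgHom K (WRel K n) (FreeAlgebra.ι K s)

variable (K : Type) [Field K] (n : ℕ)

/-- the symplectic form -/
def om : Fin n ⊕ Fin n → Fin n ⊕ Fin n → K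
  | Sum.inl _, Sum.inl _ => 0
  | Sum.inr _, Sum.inr _ => 0
  | Sum.inr i, Sum.inl j => if i = j then 1 else 0
  | Sum.inl i, Sum.inr j => if i = j then -1 else 0

lemma gn_ll (i j : Fin n) : gn K n (Sum.inl i) * gn K n (Sum.inl j)
    = gn K n (Sum.inl j) * gn K n (Sum.inl i) := by
  have h := RingQuot.mkAlgHom_rel K (s := WRel K n)
    (show WRel K n (FreeAlgebra.ι K (Sum.inl i) * FreeAlgebra.ι K (Sum.inl j))
      (FreeAlgebra.ι K (Sum.inl j) * FreeAlgebra.ι K (Sum.inl i)) from
      ⟨i, j, Or.inl ⟨rfl, rfl⟩⟩)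
  rw [map_mul, map_mul] at h
  exact h

lemma gn_rr (i j : Fin n) : gn K n (Sum.inr i) * gn K n (Sum.inr j)
    = gn K n (Sum.inr j) * gn K n (Sum.inr i) := by
  have h := RingQuot.mkAlgHom_rel K (s := WRel K n)
    (show WRel K n (FreeAlgebra.ι K (Sum.inr i) * FreeAlgebra.ι K (Sum.inr j))
      (FreeAlgebra.ι K (Sum.inr j) * FreeAlgebra.ι K (Sum.inr i)) from
      ⟨i, j, Or.inr (Or.inl ⟨rfl, rfl⟩)⟩)
  rw [map_mul, map_mul] at h
  exact h

lemma gn_rl (i j : Fin n) : gn K n (Sum.inr i) * gn K n (Sum.inl j)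
    = gn K n (Sum.inl j) * gn K n (Sum.inr i) + algebraMap K (Weyl K n) (if i = j then 1 else 0) := by
  have h := RingQuot.mkAlgHom_rel K (s := WRel K n)
    (show WRel K n (FreeAlgebra.ι K (Sum.inr i) * FreeAlgebra.ι K (Sum.inl j))
      (FreeAlgebra.ι K (Sum.inl j) * FreeAlgebra.ι K (Sum.inr i) +
        (if i = j then (1 : FreeAlgebra K (Fin n ⊕ Fin n)) else 0)) from
      ⟨i, j, Or.inr (Or.inr ⟨rfl, rfl⟩)⟩)
  rw [map_mul, map_add, map_mul] at h
  have h2 : RingQuot.mkAlgHom K (WRel K n) (if i = j then (1 : FreeAlgebra K (Fin n ⊕ Fin n)) else 0)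
      = algebraMap K (Weyl K n) (if i = j then 1 else 0) := by
    split_ifs <;> simp
  rw [h2] at h
  exact h

lemma gn_rel (s t : Fin n ⊕ Fin n) : gn K n s * gn K n t - gn K n t * gn K n s
    = algebraMap K (Weyl K n) (om K n s t) := by
  rcases s with i | i <;> rcases t with j | j
  · rw [gn_ll, sub_self, om, map_zero]
  · rw [gn_rl, om]
    by_cases hij : i = j
    · subst hij; simp
    · rw [if_neg hij, if_neg (Ne.symm hij)]; simp
  · rw [gn_rl, om]; abel
  · rw [gn_rr, sub_self, om, map_zero]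

lemma om_sum (a b : Fin n ⊕ Fin n) : ∑ i, om K n a i * om K n i b = if a = b then -1 else 0 := by
  rw [Fintype.sum_sum_type]
  rcases a with i | i <;> rcases b with j | j
  · simp only [om, zero_mul, Finset.sum_const_zero, zero_add]
    simp only [ite_mul, zero_mul]
    rw [Finset.sum_ite_eq]
    by_cases hij : i = j
    · subst hij; simp
    · simp [hij]
  · simp [om]
  · simp [om]
  · simp only [om, zero_mul, Finset.sum_const_zero, add_zero]
    simp only [ite_mul, zero_mul]
    rw [Finset.sum_ite_eq]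
    by_cases hij : i = j
    · subst hij; simp
    · simp [hij]

/-- The Weyl algebra as an instance of the abstract structure. -/
noncomputable def weylWD : WD K (Fin n ⊕ Fin n) (Weyl K n) where
  z := gn K n
  om := om K n
  oi := fun a b => - om K n a b
  inv1 := fun a b => by
    simp only [neg_mul, Finset.sum_neg_distrib, om_sum]
    split_ifs <;> simp
  inv2 := fun a b => by
    simp only [mul_neg, Finset.sum_neg_distrib, om_sum]
    split_ifs <;> simp
  skew := fun a b => by
    rcases a with i | i <;> rcases b with j | j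
    · simp [om]
    · simp only [om]
      by_cases hij : i = j
      · subst hij; simp
      · rw [if_neg hij, if_neg (Ne.symm hij)]; simp
    · simp only [om]
      by_cases hij : i = j
      · subst hij; simp
      · rw [if_neg hij, if_neg (Ne.symm hij)]; simp
    · simp [om]
  rel := gn_rel K n
  gen := by
    have h1 : Set.range (gn K n) = (RingQuot.mkAlgHom K (WRel K n)) '' (Set.range (FreeAlgebra.ι K)) := by
      rw [← Set.range_comp]; rfl
    rw [h1, ← AlgHom.map_adjoin, FreeAlgebra.adjoin_range_ι, Algebra.map_top,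
      AlgHom.range_eq_top]
    exact RingQuot.mkAlgHom_surjective K (WRel K n)
  lift := by
    intro B _ _ y hy
    refine ⟨RingQuot.liftAlgHom K ⟨FreeAlgebra.lift K y, ?_⟩, ?_⟩
    · rintro a b ⟨i, j, ⟨rfl, rfl⟩ | ⟨rfl, rfl⟩ | ⟨rfl, rfl⟩⟩
      · have := hy (Sum.inl i) (Sum.inl j)
        rw [om, map_zero, sub_eq_zero] at this
        rw [map_mul, map_mul, FreeAlgebra.lift_ι_apply, FreeAlgebra.lift_ι_apply, this]
      · have := hy (Sum.inr i) (Sum.inr j)
        rw [om, map_zero, sub_eq_zero] at this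
        rw [map_mul, map_mul, FreeAlgebra.lift_ι_apply, FreeAlgebra.lift_ι_apply, this]
      · have := hy (Sum.inr i) (Sum.inl j)
        rw [om, sub_eq_iff_eq_add] at this
        rw [map_mul, map_add, map_mul, FreeAlgebra.lift_ι_apply, FreeAlgebra.lift_ι_apply, this,
          add_comm]
        congr 1
        split_ifs <;> simp
    · intro i
      simp [gn]

end Pool.Agent.H349R3
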